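import Mathlib

namespace Pool.Agent.Results.MP_b67006_nt.Fails

/-- generalized central trinomial coefficient -/
def T (n : ℕ) (b c : ℤ) : ℤ :=
  ∑ j ∈ Finset.range (n / 2 + 1), (n.choose (2 * j) : ℤ) * ((2 * j).choose j) * b ^ (n - 2 * j) * c ^ j

/-- the second sum -/
def S' (p : ℕ) : ℚ := ∑ k ∈ Finset.range p, ((2 * k).choose k : ℚ) / 16 ^ k * T (2 * k) 4 (-3)

/-- The congruence for the second sum in part (a) does not hold for every prime above 3. -/
theorem result : ¬ ∀ p : ℕ, p.Prime → 3 < p → p % 3 = 1 → ∀ x y : ℤ,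
    (p : ℤ) = x ^ 2 + 3 * y ^ 2 → x % 3 = 1 →
    ∃ c : ℚ, ¬ p ∣ c.den ∧ S' p - (-1) ^ ((p - 1) / 2) * (2 * x - p / (2 * x)) = p ^ 2 * c := by
  intro h
  obtain ⟨c, h1, h2⟩ := h 7 (by norm_num) (by norm_num) (by norm_num) (-2) 1 (by norm_num)
    (by norm_num)
  have e : S' 7 = -781639815 / 1048576 := by
    simp only [S', T, Finset.sum_range_succ, Nat.choose]
    norm_num
  have e2 : c = -111999873 / 7340032 := by
    rw [e] at h2
    push_cast at h2
    linarith
  rw [e2] at h1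
  exact h1 (by norm_num)

end Pool.Agent.Results.MP_b67006_nt.Fails
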